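import Pool.Agent.Helper93.PL.St

/-!
# Module BMO of project PL (moments of the Euler product)
-/

set_option autoImplicit false

namespace Pool.Agent.Helper10.PL

open Finset
open Pool.Agent.Helper93.PL

/-- one factor -/
noncomputable def bf (p n : ℕ) : ℝ := (1 - (n : ℝ) / p) / (1 - 1 / (p : ℝ))

theorem Pw_prime {w : ℕ} (p : Pw w) : p.1.Prime := (Finset.mem_filter.mp p.2).2

theorem sum_fac (w k : ℕ) :
    ∑ n ∈ Fintype.piFinset (fun p : Pw w => range (p.1 + 1)), (∏ p : Pw w, bw p.1 (n p)) * eu n ^ k =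
      ∏ p : Pw w, ∑ n ∈ range (p.1 + 1), bw p.1 n * bf p.1 n ^ k := by
  rw [Finset.prod_univ_sum]
  refine Finset.sum_congr rfl fun n _ => ?_
  unfold eu
  rw [← Finset.prod_pow, ← Finset.prod_mul_distrib]
  rfl

theorem bw_nonneg {p : ℕ} (hp : 1 ≤ p) (n : ℕ) : 0 ≤ bw p n := by
  unfold bw
  have h1 : (1 : ℝ) ≤ p := by exact_mod_cast hp
  have h2 : (0 : ℝ) ≤ 1 - 1 / (p : ℝ) := by
    have : 1 / (p : ℝ) ≤ 1 := by
      rw [div_le_one (by linarith)]
      exact h1
    linarith
  positivity

theorem bf_nonneg {p n : ℕ} (hp : 2 ≤ p) (hn : n ≤ p) : 0 ≤ bf p n := by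
  unfold bf
  have h1 : (2 : ℝ) ≤ p := by exact_mod_cast hp
  have h2 : (n : ℝ) ≤ p := by exact_mod_cast hn
  have h3 : (n : ℝ) / p ≤ 1 := by
    rw [div_le_one (by linarith)]
    exact h2
  have h4 : 1 / (p : ℝ) ≤ 1 := by
    rw [div_le_one (by linarith)]
    linarith
  apply div_nonneg <;> linarith

theorem hBmo (hBm1 : StBm1) (hBm2 : StBm2) : Pool.Agent.Helper93.PL.StBmo := by
  refine ⟨?_, ?_, ?_⟩
  · intro w
    have h := sum_fac w 1
    simp only [pow_one] at h
    rw [h]
    refine Finset.prod_eq_one fun p _ => ?_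
    exact (hBm1 p.1 (Pw_prime p).two_le).2.1
  · intro w
    have h := sum_fac w 0
    simp only [pow_zero, mul_one] at h
    rw [h]
    refine Finset.prod_eq_one fun p _ => ?_
    exact (hBm1 p.1 (Pw_prime p).two_le).1
  · intro k w
    rw [sum_fac w k]
    have hstep : ∀ p : ℕ, p.Prime → ∑ n ∈ range (p + 1), bw p n * bf p n ^ k ≤
        (if p ≤ k + 1 then ((p : ℝ) / (p - 1)) ^ k else 1) *
          Real.exp (if k + 1 < p then 4 * k ^ 2 / (p : ℝ) ^ 2 else 0) := by
      intro p hp
      by_cases hk : p ≤ k + 1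
      · rw [if_pos hk, if_neg (by omega), Real.exp_zero, mul_one]
        exact (hBm1 p hp.two_le).2.2.2 k
      · rw [if_neg hk, if_pos (by omega), one_mul]
        exact (hBm1 p hp.two_le).2.2.1 k (by omega)
    have h1 : ∏ p : Pw w, ∑ n ∈ range (p.1 + 1), bw p.1 n * bf p.1 n ^ k ≤
        ∏ p : Pw w, ((if p.1 ≤ k + 1 then ((p.1 : ℝ) / (p.1 - 1)) ^ k else 1) *
          Real.exp (if k + 1 < p.1 then 4 * k ^ 2 / (p.1 : ℝ) ^ 2 else 0)) := by
      refine Finset.prod_le_prod ?_ fun p _ => hstep p.1 (Pw_prime p)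
      intro p _
      refine Finset.sum_nonneg fun n hn => ?_
      exact mul_nonneg (bw_nonneg (Pw_prime p).one_lt.le n)
        (pow_nonneg (bf_nonneg (Pw_prime p).two_le (by
          have := Finset.mem_range.mp hn
          omega)) k)
    refine h1.trans ?_
    rw [Finset.prod_coe_sort (Pw w) (fun p : ℕ => (if p ≤ k + 1 then ((p : ℝ) / (p - 1)) ^ k else 1) *
          Real.exp (if k + 1 < p then 4 * k ^ 2 / (p : ℝ) ^ 2 else 0)), Finset.prod_mul_distrib,
      ← Real.exp_sum]
    obtain ⟨hA, hB⟩ := hBm2 (k + 1) (by omega)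
    have hge : ∀ p : ℕ, p.Prime → 1 ≤ ((p : ℝ) / (p - 1)) := by
      intro p hp
      have h2 : (2 : ℝ) ≤ p := by exact_mod_cast hp.two_le
      rw [le_div_iff₀ (by linarith)]
      linarith
    have h2 : ∏ p ∈ Pw w, (if p ≤ k + 1 then ((p : ℝ) / (p - 1)) ^ k else 1) ≤
        (2 * Real.sqrt (k + 2)) ^ k := by
      rw [← Finset.prod_filter]
      have hsub : (Pw w).filter (fun p => p ≤ k + 1) ⊆ (Icc 1 (k + 1)).filter Nat.Prime := by
        intro p hp
        rw [Finset.mem_filter] at hp
        unfold Pw at hp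
        rw [Finset.mem_filter, Finset.mem_Icc] at hp
        rw [Finset.mem_filter, Finset.mem_Icc]
        exact ⟨⟨hp.1.1.1, hp.2⟩, hp.1.2⟩
      calc ∏ p ∈ (Pw w).filter (fun p => p ≤ k + 1), ((p : ℝ) / (p - 1)) ^ k
          ≤ ∏ p ∈ (Icc 1 (k + 1)).filter Nat.Prime, ((p : ℝ) / (p - 1)) ^ k := by
            rw [← Finset.prod_sdiff hsub]
            refine le_mul_of_one_le_left ?_ ?_
            · refine Finset.prod_nonneg fun p hp => ?_
              have hp' : p.Prime := by
                have := (Finset.mem_filter.mp (hsub hp)).2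
                exact this
              exact pow_nonneg (zero_le_one.trans (hge p hp')) k
            · have h5 : ∀ s : Finset ℕ, (∀ p ∈ s, p.Prime) → (1 : ℝ) ≤ ∏ p ∈ s, ((p : ℝ) / (p - 1)) ^ k := by
                intro s
                induction s using Finset.induction_on with
                | empty => intro _; simp
                | insert a s ha ih =>
                  intro h
                  rw [Finset.prod_insert ha]
                  exact one_le_mul_of_one_le_of_one_le
                    (one_le_pow₀ (hge a (h a (Finset.mem_insert_self a s))))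
                    (ih fun p hp => h p (Finset.mem_insert_of_mem hp))
              exact h5 _ fun p hp => (Finset.mem_filter.mp (Finset.mem_sdiff.mp hp).1).2
        _ = (∏ p ∈ (Icc 1 (k + 1)).filter Nat.Prime, ((p : ℝ) / (p - 1))) ^ k := by
            rw [Finset.prod_pow]
        _ ≤ (2 * Real.sqrt (k + 2)) ^ k := by
            refine pow_le_pow_left₀ ?_ ?_ k
            · refine Finset.prod_nonneg fun p hp => ?_
              exact zero_le_one.trans (hge p (Finset.mem_filter.mp hp).2)
            · refine hA.trans (le_of_eq ?_)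
              congr 2
              push_cast
              ring
    have h3 : ∑ p ∈ Pw w, (if k + 1 < p then 4 * (k : ℝ) ^ 2 / (p : ℝ) ^ 2 else (0 : ℝ)) ≤ 4 * (k : ℝ) := by
      have e1 : ∑ p ∈ Pw w, (if k + 1 < p then 4 * (k : ℝ) ^ 2 / (p : ℝ) ^ 2 else 0) =
          4 * (k : ℝ) ^ 2 * ∑ p ∈ (Icc 1 w).filter (fun p => p.Prime ∧ k + 1 < p), 1 / (p : ℝ) ^ 2 := by
        rw [← Finset.sum_filter]
        unfold Pw
        rw [Finset.filter_filter, Finset.mul_sum]
        refine Finset.sum_congr rfl fun p _ => ?_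
        ring
      rw [e1]
      have h4 := hB w
      have hk : (0 : ℝ) ≤ k := Nat.cast_nonneg k
      calc 4 * (k : ℝ) ^ 2 * ∑ p ∈ (Icc 1 w).filter (fun p => p.Prime ∧ k + 1 < p), 1 / (p : ℝ) ^ 2
          ≤ 4 * (k : ℝ) ^ 2 * (1 / ((k + 1 : ℕ) : ℝ)) := by
            exact mul_le_mul_of_nonneg_left h4 (by positivity)
        _ ≤ 4 * (k : ℝ) := by
            push_cast
            rw [mul_one_div, div_le_iff₀ (by linarith)]
            nlinarith
    calc (∏ p ∈ Pw w, (if p ≤ k + 1 then ((p : ℝ) / (p - 1)) ^ k else 1)) *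
          Real.exp (∑ p ∈ Pw w, (if k + 1 < p then 4 * (k : ℝ) ^ 2 / (p : ℝ) ^ 2 else 0))
        ≤ (2 * Real.sqrt (k + 2)) ^ k * Real.exp (4 * k) := by
          refine mul_le_mul h2 (Real.exp_le_exp.mpr h3) (Real.exp_pos _).le (by positivity)
      _ = (2 * Real.sqrt (k + 2) * Real.exp 4) ^ k := by
          rw [mul_pow _ (Real.exp 4), ← Real.exp_nat_mul]
          congr 2
          ring

end Pool.Agent.Helper10.PL
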