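import Pool.Agent.Helper16.PL.St

/-! PL module Order: planarity, the order of two consecutive bridges at all common cuts -/

open Finset

namespace Pool.PL

open Pool.HW

namespace OrderAux

/-- the points of the second bridge are not vertices of the first one -/
theorem not_vertex {h : ℕ} {b b' : List Dir} (hb : Y b = (h : ℤ)) (hS : Sa (b ++ b'.map flipY))
    {p q : List Dir} (hp : p <+: b') (hne : p ≠ []) (hq : q <+: b) :
    ¬ (X q = X b + X p ∧ Y q = (h : ℤ) - Y p) := by
  rintro ⟨h1, h2⟩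
  obtain ⟨s, rfl⟩ := hq
  obtain ⟨t, rfl⟩ := hp
  have h3 : s ++ p.map flipY <:+: (q ++ s) ++ (p ++ t).map flipY :=
    ⟨q, t.map flipY, by simp⟩
  refine hS _ h3 (by simp [hne]) ?_
  rw [X_append, Y_append, X_flipY, Y_flipY]
  rw [X_append] at h1
  rw [Y_append] at hb
  constructor <;> omega

/-- heights of the nonempty prefixes of a bridge -/
theorem height_range {h' : ℕ} {b' : List Dir} (hb' : BrH h' b') {p : List Dir} (hp : p <+: b')
    (hne : p ≠ []) : 1 ≤ Y p ∧ Y p ≤ (h' : ℤ) := by
  have h1 := hb'.1.2.1 p hp hne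
  obtain ⟨t, rfl⟩ := hp
  have h2 := hb'.1.2.2 t (List.suffix_append _ _)
  have h3 := hb'.2
  rw [Y_append] at h3
  constructor <;> omega

/-- one step -/
theorem step (h1 : StCrH) (h2 : StCrV) {h h' : ℕ} {b b' : List Dir} (hb : BrH h b)
    (hb' : BrH h' b') (hh : h' < h) (hS : Sa (b ++ b'.map flipY)) {p : List Dir} {a : Dir}
    (hpa : p ++ [a] <+: b') (hne : p ≠ []) :
    (2 : ℤ) ∣ cr b (X b + X (p ++ [a])) (h - Y (p ++ [a])) - cr b (X b + X p) (h - Y p) := by
  have hp : p <+: b' := (List.prefix_append _ _).trans hpa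
  have hY := hb.2
  have hr := height_range hb' hp hne
  have hr' := height_range hb' hpa (by simp)
  have hv : ∀ q, q <+: b → ¬ (X q = X b + X p ∧ Y q = (h : ℤ) - Y p) := fun q hq =>
    not_vertex hY hS hp hne hq
  have hv' : ∀ q, q <+: b → ¬ (X q = X b + X (p ++ [a]) ∧ Y q = (h : ℤ) - Y (p ++ [a])) :=
    fun q hq => not_vertex hY hS hpa (by simp) hq
  cases a with
  | E =>
    have e := h1 b (X b + X p) (h - Y p) hv
    have hx : X b + X (p ++ [Dir.E]) = X b + X p + 1 := by simp [dx]; ring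
    have hy : (h : ℤ) - Y (p ++ [Dir.E]) = h - Y p := by simp [dy]
    rw [hx, hy, e, sub_self]
    exact dvd_zero _
  | W =>
    have e := h1 b (X b + X (p ++ [Dir.W])) (h - Y (p ++ [Dir.W])) hv'
    have hx : X b + X (p ++ [Dir.W]) + 1 = X b + X p := by simp [dx]; ring
    have hy : (h : ℤ) - Y (p ++ [Dir.W]) = h - Y p := by simp [dy]
    rw [hx, hy] at e
    rw [hy, e, sub_self]
    exact dvd_zero _
  | N =>
    have e := h2 b (X b + X p) (h - Y p - 1) (by
      intro q hq
      have := hv q hq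
      rwa [show (h : ℤ) - Y p - 1 + 1 = h - Y p by ring])
    rw [show (h : ℤ) - Y p - 1 + 1 = h - Y p by ring] at e
    rw [if_neg (by omega), if_neg (by omega)] at e
    have hx : X b + X (p ++ [Dir.N]) = X b + X p := by simp [dx]
    have hy : (h : ℤ) - Y (p ++ [Dir.N]) = h - Y p - 1 := by simp [dy]; ring
    rw [hx, hy]
    omega
  | S =>
    have hx : X b + X (p ++ [Dir.S]) = X b + X p := by simp [dx]
    have hy : (h : ℤ) - Y (p ++ [Dir.S]) = h - Y p + 1 := by simp [dy]; ring
    rw [hx, hy] at hv' ⊢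
    have e := h2 b (X b + X p) (h - Y p) hv'
    rw [if_neg (by omega), if_neg (by omega)] at e
    omega

/-- the crossing numbers along the second bridge are constant modulo two -/
theorem const (h1 : StCrH) (h2 : StCrV) {h h' : ℕ} {b b' : List Dir} (hb : BrH h b)
    (hb' : BrH h' b') (hh : h' < h) (hS : Sa (b ++ b'.map flipY)) (p : List Dir) :
    p <+: b' → p ≠ [] →
    (2 : ℤ) ∣ cr b (X b + X p) (h - Y p) - cr b (X b) (h - 1) := by
  induction p using List.reverseRecOn with
  | nil => intro _ hne; exact absurd rfl hne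
  | append_singleton p a ih =>
    intro hpa _
    rcases eq_or_ne p [] with rfl | hne
    · have h3 := (height_range hb' hpa (by simp)).1
      have ha : a = Dir.N := by
        cases a <;> simp [dy] at h3 ⊢
      subst ha
      simp [dx, dy]
    · have h3 := ih ((List.prefix_append _ _).trans hpa) hne
      have h4 := step h1 h2 hb hb' hh hS hpa hne
      omega

end OrderAux

open OrderAux

theorem order (h1 : StCrH) (h2 : StCrV) (h3 : StCrCut) : StOrder := by
  intro h h' b b' hb hb' hh hS
  have key : ∀ c e e' c', b = c ++ e → Br c → Br e → Dir.N :: b' = e' ++ c' → Br e' → Br c' →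
      Y e = Y e' → 1 ≤ Y e → Y e ≤ h' →
      X e + X e' ≠ 0 ∧ (2 : ℤ) ∣ (if 0 < X e + X e' then 1 else 0) - cr b (X b) (h - 1) := by
    intro c e e' c' hbc hc he hbe' he' hc' hY hY1 hY2
    have hene : e ≠ [] := by rintro rfl; simp at hY1
    obtain ⟨a, p', rfl⟩ : ∃ a p', e' = a :: p' := by
      cases e' with
      | nil => simp at hY; omega
      | cons a p' => exact ⟨a, p', rfl⟩
    rw [List.cons_append, List.cons.injEq] at hbe'
    obtain ⟨rfl, hb'e⟩ := hbe'
    have hYb' := hb'.2
    have hYb := hb.2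
    have hYc' : 1 ≤ Y c' := by
      rw [hb'e, Y_append] at hYb'
      rw [Y_cons] at hY
      simp only [dy] at hY
      omega
    obtain ⟨a, c'', rfl⟩ : ∃ a c'', c' = a :: c'' := by
      cases c' with
      | nil => simp at hYc'
      | cons a c'' => exact ⟨a, c'', rfl⟩
    have ha : a = Dir.N := by
      have h4 := hc'.2.1 [a] ⟨c'', rfl⟩ (by simp)
      cases a <;> simp [dy] at h4 ⊢
    subst ha
    have hp : p' ++ [Dir.N] <+: b' := ⟨c'', by rw [hb'e]; simp⟩
    have hX : X (p' ++ [Dir.N]) = X (Dir.N :: p') := by simp [dx]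
    have hYY : Y (p' ++ [Dir.N]) = Y (Dir.N :: p') := by simp [dy]; ring
    have hYc : (h : ℤ) - Y (Dir.N :: p') = Y c := by
      rw [hbc, Y_append] at hYb
      omega
    have hXb : X b = X c + X e := by rw [hbc, X_append]
    have hne0 : X e + X (Dir.N :: p') ≠ 0 := by
      intro h0
      refine not_vertex hYb hS hp (by simp) (q := c) ⟨e, hbc.symm⟩ ⟨?_, ?_⟩
      · rw [hX, hXb]; omega
      · rw [hYY, hYc]
    refine ⟨hne0, ?_⟩
    have h5 := const h1 h2 hb hb' hh hS _ hp (by simp)
    have h6 : cr b (X b + X (Dir.N :: p')) (Y c) =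
        if X c < X b + X (Dir.N :: p') then 1 else 0 := by
      have h8 := h3 c e (X b + X (Dir.N :: p')) hc he hene
      rwa [← hbc] at h8
    rw [hX, hYY, hYc, h6] at h5
    have h7 : (X c < X b + X (Dir.N :: p')) ↔ 0 < X e + X (Dir.N :: p') := by
      rw [hXb]
      constructor <;> intro h8 <;> omega
    simpa only [h7] using h5
  by_cases hk : (2 : ℤ) ∣ cr b (X b) (h - 1)
  · right
    intro c e e' c' g1 g2 g3 g4 g5 g6 g7 g8 g9
    obtain ⟨k1, k2⟩ := key c e e' c' g1 g2 g3 g4 g5 g6 g7 g8 g9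
    split_ifs at k2 with k3
    · exfalso; omega
    · omega
  · left
    intro c e e' c' g1 g2 g3 g4 g5 g6 g7 g8 g9
    obtain ⟨k1, k2⟩ := key c e e' c' g1 g2 g3 g4 g5 g6 g7 g8 g9
    split_ifs at k2 with k3
    · exact k3
    · exfalso; omega

end Pool.PL
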